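import Pool.Agent.helper23.F2.Spec

/-!
# MP_26dbae_co (f2): row CL3, subgraphs
-/

set_option autoImplicit false

namespace Pool.Agent.F2

open Pool.Agent.helper23.TH

theorem CL3_lab {V L : Type} {b s : ℕ} (G : LG V L b s) (U : Finset V) (H : HG) (φ : H.W → {x // x ∈ U})
    (o : H.W ⊕ H.E) : G.lab H (fun w => (φ w).1) o = (G.sub U).lab H φ o := by
  cases o <;> rfl

theorem CL3_cop {V L : Type} {b s : ℕ} (G : LG V L b s) (U : Finset V) (H : HG) (φ : H.W → {x // x ∈ U})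
    (h : (G.sub U).Cop H φ) : G.Cop H (fun w => (φ w).1) := by
  refine ⟨fun e => h.adj e, fun o o' hoo => ?_⟩
  rw [CL3_lab, CL3_lab]
  exact h.dis o o' hoo

theorem CL3 : CL3_stmt := by
  intro V L b s G U
  refine ⟨fun hT u v huv => hT u.1 v.1 huv, fun H => ⟨?_, ?_⟩⟩
  · rintro ⟨φ, hφ⟩
    exact ⟨fun w => (φ w).1, CL3_cop G U H φ hφ⟩
  · rintro ⟨φ, hφ, hc⟩
    exact ⟨fun w => (φ w).1, CL3_cop G U H φ hφ, hc⟩

end Pool.Agent.F2
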